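import Pool.Agent.N898.BU.Stm

/-!
# Project BU (helper898), part WS: from unit windows to Gaussian sums
-/

set_option autoImplicit false
set_option linter.all false

namespace Pool.Agent.N756.BU

open Finset

/-- the weights -/
noncomputable def w (T : ℝ) (k : ℕ) : ℝ := 2 * T ^ 2 / (T + k) ^ 2

theorem w_nonneg (T : ℝ) (k : ℕ) : 0 ≤ w T k := by
  unfold w
  positivity

theorem sum_w {T : ℝ} (hT : 1 ≤ T) : ∀ n : ℕ,
    ∑ k ∈ range (n + 1), w T k ≤ 2 + 2 * T - 2 * T ^ 2 / (T + n) := by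
  intro n
  induction n with
  | zero =>
    rw [sum_range_one]
    unfold w
    have h0 : T ≠ 0 := by positivity
    simp only [Nat.cast_zero, add_zero]
    have e1 : 2 * T ^ 2 / T ^ 2 = 2 := by field_simp
    have e2 : 2 * T ^ 2 / T = 2 * T := by field_simp
    rw [e1, e2]
    linarith
  | succ n ih =>
    rw [sum_range_succ]
    have h1 : (0 : ℝ) < T + n := by positivity
    have h2 : (0 : ℝ) < T + n + 1 := by positivity
    have e : w T (n + 1) ≤ 2 * T ^ 2 / (T + n) - 2 * T ^ 2 / (T + ((n + 1 : ℕ) : ℝ)) := by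
      unfold w
      push_cast
      rw [← add_assoc]
      have e1 : 2 * T ^ 2 / (T + n) - 2 * T ^ 2 / (T + n + 1) =
          2 * T ^ 2 / ((T + n) * (T + n + 1)) := by
        field_simp
        ring
      rw [e1]
      apply div_le_div_of_nonneg_left (by positivity) (by positivity)
      nlinarith
    linarith

theorem sum_w' {T : ℝ} (hT : 1 ≤ T) (K : Finset ℕ) : ∑ k ∈ K, w T k ≤ 4 * T := by
  obtain ⟨n, hn⟩ : ∃ n, K ⊆ range (n + 1) := by
    refine ⟨K.sup id, fun k hk => mem_range.2 ?_⟩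
    have := Finset.le_sup (f := id) hk
    simp only [id] at this
    omega
  refine (sum_le_sum_of_subset_of_nonneg hn fun k _ _ => w_nonneg T k).trans ?_
  have h1 := sum_w hT n
  have h2 : 0 ≤ 2 * T ^ 2 / (T + n) := by positivity
  linarith

theorem exp_le_w {T : ℝ} (hT : 1 ≤ T) {y : ℝ} {k : ℕ} (hk : (k : ℝ) ≤ |y|) :
    Real.exp (-(y ^ 2 / T ^ 2)) ≤ w T k := by
  have hT0 : 0 < T := by linarith
  have h1 : (k : ℝ) ^ 2 ≤ y ^ 2 := by
    rw [← sq_abs y]
    exact pow_le_pow_left₀ (Nat.cast_nonneg k) hk 2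
  have h2 : 1 + y ^ 2 / T ^ 2 ≤ Real.exp (y ^ 2 / T ^ 2) := by
    have := Real.add_one_le_exp (y ^ 2 / T ^ 2)
    linarith
  have h3 : 0 < 1 + y ^ 2 / T ^ 2 := by positivity
  rw [Real.exp_neg]
  refine (inv_anti₀ h3 h2).trans ?_
  unfold w
  have h4 : (1 + y ^ 2 / T ^ 2)⁻¹ = T ^ 2 / (T ^ 2 + y ^ 2) := by
    field_simp
  rw [h4, div_le_div_iff₀ (by positivity) (by positivity)]
  have h5 : (T + k) ^ 2 ≤ 2 * (T ^ 2 + y ^ 2) := by nlinarith [sq_nonneg (T - k)]
  nlinarith [sq_nonneg T]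

theorem main {m : ℂ → ℝ} {B : ℝ} (hm : ∀ z, m z = 0 ∨ 1 ≤ |m z|)
    (hB : ∀ F : Finset ℂ, (∀ z ∈ F, z.re = 1 / 2) → (∀ z ∈ F, ∀ z' ∈ F, |z.im - z'.im| ≤ 1) →
      ∑ z ∈ F, (m z) ^ 2 ≤ B) :
    ∃ C : ℝ, 0 ≤ C ∧ ∀ T : ℝ, 1 ≤ T → ∀ F : Finset ℂ, (∀ z ∈ F, z.re = 1 / 2) →
      ∑ z ∈ F, |m z| * Real.exp (-(z.im ^ 2 / T ^ 2)) ≤ C * T := by
  classical
  have hB0 : 0 ≤ B := by
    have := hB ∅ (by simp) (by simp)
    simpa using this
  have hle : ∀ z, |m z| ≤ m z ^ 2 := by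
    intro z
    rcases hm z with h | h
    · rw [h]
      simp
    · rw [← sq_abs]
      nlinarith
  refine ⟨8 * B, by positivity, fun T hT F hF => ?_⟩
  have hT0 : 0 < T := by linarith
  have hwin : ∀ G : Finset ℂ, G ⊆ F → (∀ z ∈ G, ∀ z' ∈ G, |z.im - z'.im| ≤ 1) →
      ∑ z ∈ G, |m z| ≤ B := fun G hG h =>
    (sum_le_sum fun z _ => hle z).trans (hB G (fun z hz => hF z (hG hz)) h)
  set j : ℂ → ℕ := fun z => ⌊|z.im|⌋₊ with hj
  have hj1 : ∀ z, (j z : ℝ) ≤ |z.im| := fun z => Nat.floor_le (abs_nonneg _)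
  have hj2 : ∀ z, |z.im| < j z + 1 := fun z => Nat.lt_floor_add_one _
  rw [← Finset.sum_fiberwise_of_maps_to (s := F) (t := F.image j) (g := j)
    (fun z hz => mem_image_of_mem j hz)]
  have h2 : ∀ k ∈ F.image j, ∑ z ∈ F with j z = k, |m z| * Real.exp (-(z.im ^ 2 / T ^ 2)) ≤
      2 * B * w T k := by
    intro k _
    have e1 : ∑ z ∈ F with j z = k, |m z| * Real.exp (-(z.im ^ 2 / T ^ 2)) ≤
        ∑ z ∈ F with j z = k, |m z| * w T k := by
      refine sum_le_sum fun z hz => ?_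
      refine mul_le_mul_of_nonneg_left (exp_le_w hT ?_) (abs_nonneg _)
      rw [← (mem_filter.1 hz).2]
      exact hj1 z
    refine e1.trans ?_
    rw [← Finset.sum_mul]
    refine mul_le_mul_of_nonneg_right ?_ (w_nonneg T k)
    rw [← Finset.sum_filter_add_sum_filter_not _ (fun z : ℂ => 0 ≤ z.im)]
    have g1 : ∑ z ∈ (F.filter fun z => j z = k) with 0 ≤ z.im, |m z| ≤ B := by
      refine hwin _ ((filter_subset _ _).trans (filter_subset _ _)) fun z hz z' hz' => ?_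
      obtain ⟨a1, a2⟩ := mem_filter.1 hz
      obtain ⟨b1, b2⟩ := mem_filter.1 hz'
      have a3 := hj1 z
      have a4 := hj2 z
      have b3 := hj1 z'
      have b4 := hj2 z'
      rw [(mem_filter.1 a1).2, abs_of_nonneg a2] at a3 a4
      rw [(mem_filter.1 b1).2, abs_of_nonneg b2] at b3 b4
      rw [abs_le]
      constructor <;> linarith
    have g2 : ∑ z ∈ (F.filter fun z => j z = k) with ¬ 0 ≤ z.im, |m z| ≤ B := by
      refine hwin _ ((filter_subset _ _).trans (filter_subset _ _)) fun z hz z' hz' => ?_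
      obtain ⟨a1, a2⟩ := mem_filter.1 hz
      obtain ⟨b1, b2⟩ := mem_filter.1 hz'
      have a3 := hj1 z
      have a4 := hj2 z
      have b3 := hj1 z'
      have b4 := hj2 z'
      rw [(mem_filter.1 a1).2, abs_of_neg (not_le.1 a2)] at a3 a4
      rw [(mem_filter.1 b1).2, abs_of_neg (not_le.1 b2)] at b3 b4
      rw [abs_le]
      constructor <;> linarith
    linarith
  refine (sum_le_sum h2).trans ?_
  rw [← Finset.mul_sum]
  have h3 := mul_le_mul_of_nonneg_left (sum_w' hT (F.image j)) (by positivity : 0 ≤ 2 * B)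
  linarith

theorem main_WS : Pool.Agent.N898.BU.S_WS := fun hm hB => main hm hB

end Pool.Agent.N756.BU
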